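import Pool.Agent.H35.W.Defs
import Pool.Agent.H91.EHA.SwK1

/-!
# GB PbCard: a lower bound for the number of primes in `(P, 2P]`

Proof.  `psi_ap 0 1` at `x = 2 P`, `c = 1`: `ψ(2P) - ψ(P) ≥ P - 2 · 2P/log(2P) ≥ P/2` for large `P` (`psiA y 1 a = ∑_{n ≤ y} Λ(n)`).  The prime powers `p^k ≤ 2P`, `k ≥ 2`,
contribute `≤ C √P (log P)^2`.  So `∑_{p ∈ pb P} log p ≥ P/4` and `log p ≤ log(2P) ≤ 2 log P`.  (Alternatively from Mathlib's
Chebyshev bounds, e.g. `Chebyshev.theta`, or from a lemma of the EHB / EHA / PK files.)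
-/

set_option autoImplicit false

namespace Pool.Agent.H76.GB

open Finset
open Pool.Agent.H91.EHA
open Pool.Agent.H35.W

private theorem pbcard_psi (y : ℕ) : psiA y 1 0 = Chebyshev.psi (y : ℝ) := by
  unfold psiA Chebyshev.psi Lam
  rw [Nat.floor_natCast]
  refine Finset.sum_congr ?_ fun _ _ => rfl
  ext n
  simp only [mem_filter, mem_Icc, mem_Ioc, Nat.modEq_one, and_true]
  omega

private theorem pbcard_theta (P : ℕ) :
    Chebyshev.theta ((2 * P : ℕ) : ℝ) - Chebyshev.theta (P : ℝ) = ∑ p ∈ pb P, Real.log p := by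
  unfold Chebyshev.theta pb
  rw [Nat.floor_natCast, Nat.floor_natCast]
  have h : (Ioc 0 (2 * P)).filter Nat.Prime =
      (Ioc 0 P).filter Nat.Prime ∪ (Ioc P (2 * P)).filter Nat.Prime := by
    rw [← filter_union]
    congr 1
    ext n
    simp only [mem_union, mem_Ioc]
    omega
  rw [h, sum_union]
  · ring
  · rw [disjoint_left]
    intro n hn hn'
    simp only [mem_filter, mem_Ioc] at hn hn'
    omega

theorem pb_card : ∃ P0 : ℕ, ∀ P : ℕ, P0 ≤ P → (P : ℝ) / (8 * Real.log P) ≤ ((pb P).card : ℝ) := by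
  obtain ⟨x0, hx0⟩ := psi_ap 0 1
  have h1 := (isLittleO_log_rpow_atTop (r := 1 / 2) (by norm_num)).bound (c := 1 / 16)
    (by norm_num)
  have h2 := (h1.and (Filter.eventually_ge_atTop (1 : ℝ))).and
    (Real.tendsto_log_atTop.eventually (Filter.eventually_ge_atTop (16 : ℝ)))
  have h3 := tendsto_natCast_atTop_atTop (R := ℝ) |>.eventually h2
  obtain ⟨x1, hx1⟩ := Filter.eventually_atTop.1 h3
  refine ⟨max (max x0 x1) 4, fun P hP => ?_⟩
  have hP0 : x0 ≤ P := le_trans (le_trans (le_max_left _ _) (le_max_left _ _)) hP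
  have hP1 : x1 ≤ P := le_trans (le_trans (le_max_right _ _) (le_max_left _ _)) hP
  have hP4 : 4 ≤ P := le_trans (le_max_right _ _) hP
  have hP4R : (4 : ℝ) ≤ P := by exact_mod_cast hP4
  obtain ⟨⟨g1, g2⟩, g3⟩ := hx1 (2 * P) (by omega)
  have a1 := hx0 (2 * P) (by omega) (2 * P) le_rfl 1 le_rfl (by simp) 0 (by simp)
  have a2 := hx0 (2 * P) (by omega) P (by omega) 1 le_rfl (by simp) 0 (by simp)
  rw [pbcard_psi, Nat.totient_one, Nat.cast_one, div_one, pow_one] at a1 a2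
  have hL : 0 ≤ Real.log ((2 * P : ℕ) : ℝ) := by linarith
  have hsq : ((2 * P : ℕ) : ℝ) ^ (1 / 2 : ℝ) = √((2 * P : ℕ) : ℝ) := by
    rw [Real.sqrt_eq_rpow]
  rw [Real.norm_eq_abs, Real.norm_eq_abs, abs_of_nonneg hL, hsq,
    abs_of_nonneg (Real.sqrt_nonneg _)] at g1
  have b1 := Chebyshev.psi_sub_theta_le g2
  have b2 := Chebyshev.theta_le_psi (P : ℝ)
  have b3 : 2 * √((2 * P : ℕ) : ℝ) * Real.log ((2 * P : ℕ) : ℝ) ≤ P / 4 := by
    have c1 := mul_le_mul_of_nonneg_left g1 (Real.sqrt_nonneg ((2 * P : ℕ) : ℝ))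
    have c2 : √((2 * P : ℕ) : ℝ) * √((2 * P : ℕ) : ℝ) = ((2 * P : ℕ) : ℝ) :=
      Real.mul_self_sqrt (by positivity)
    push_cast at c1 c2 ⊢
    nlinarith
  have b4 : ((2 * P : ℕ) : ℝ) / Real.log ((2 * P : ℕ) : ℝ) ≤ P / 8 := by
    rw [div_le_iff₀ (by linarith)]
    have : (P : ℝ) / 8 * 16 ≤ P / 8 * Real.log ((2 * P : ℕ) : ℝ) :=
      mul_le_mul_of_nonneg_left g3 (by positivity)
    push_cast at this ⊢
    linarith
  have a1' := (abs_le.1 a1).1
  have a2' := (abs_le.1 a2).2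
  have b5 : (P : ℝ) / 2 ≤ ∑ p ∈ pb P, Real.log p := by
    rw [← pbcard_theta]
    push_cast at *
    linarith
  have b6 : ∑ p ∈ pb P, Real.log p ≤ ((pb P).card : ℝ) * (2 * Real.log P) := by
    rw [← nsmul_eq_mul]
    refine sum_le_card_nsmul _ _ _ fun p hp => ?_
    simp only [pb, mem_filter, mem_Ioc] at hp
    have hp0 : (0 : ℝ) < p := by exact_mod_cast hp.2.pos
    have : Real.log p ≤ Real.log ((P : ℝ) ^ 2) := by
      refine Real.log_le_log hp0 ?_
      have h5 : (p : ℝ) ≤ 2 * P := by exact_mod_cast hp.1.2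
      nlinarith
    rwa [Real.log_pow, Nat.cast_ofNat] at this
  have hl : 0 < Real.log P := Real.log_pos (by linarith)
  rw [div_le_iff₀ (by positivity)]
  have hc : (0 : ℝ) ≤ ((pb P).card : ℝ) := Nat.cast_nonneg _
  nlinarith [mul_nonneg hc hl.le]

end Pool.Agent.H76.GB
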